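import Pool.Agent.Helper63.Sey3.Goals

set_option autoImplicit false

namespace Pool.Agent.Helper56.Sey3

open Pool.Agent.Helper63.Sey3 Finset

theorem nc {β : Type} [Fintype β] (P : β → Prop) [DecidablePred P] :
    Nat.card {x // P x} = (univ.filter P).card := by
  rw [Nat.card_eq_fintype_card, Fintype.card_subtype]

/-- a maximal matching by nonadjacent pairs inside `T` -/
theorem exists_mu {V : Type} [Fintype V] (H : SimpleGraph V) (T : Set V) :
    ∃ μ : V → V, (∀ x, μ (μ x) = x) ∧ (∀ x, x ∉ T → μ x = x) ∧ (∀ x, ¬ H.Adj x (μ x)) ∧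
      ∀ x y, x ∈ T → y ∈ T → μ x = x → μ y = y → x ≠ y → H.Adj x y := by
  classical
  let S : Finset (V → V) := univ.filter (fun μ => (∀ x, μ (μ x) = x) ∧ (∀ x, x ∉ T → μ x = x) ∧
    ∀ x, ¬ H.Adj x (μ x))
  have hne : S.Nonempty := ⟨fun x => x, mem_filter.2 ⟨mem_univ _, fun _ => rfl, fun _ _ => rfl,
    fun x => H.loopless.irrefl x⟩⟩
  obtain ⟨μ, hμ, hmax⟩ := S.exists_max_image (fun μ => (univ.filter (fun x => μ x ≠ x)).card) hne
  simp only [S, mem_filter, mem_univ, true_and] at hμ
  obtain ⟨h1, h2, h3⟩ := hμ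
  refine ⟨μ, h1, h2, h3, fun x y hx hy hμx hμy hxy => ?_⟩
  by_contra hadj
  let ν : V → V := fun z => if z = x then y else if z = y then x else μ z
  have hνx : ν x = y := if_pos rfl
  have hνy : ν y = x := by
    show (if y = x then y else if y = y then x else μ y) = x
    rw [if_neg hxy.symm, if_pos rfl]
  have hν : ∀ z, z ≠ x → z ≠ y → ν z = μ z := by
    intro z hz1 hz2
    show (if z = x then y else if z = y then x else μ z) = μ z
    rw [if_neg hz1, if_neg hz2]
  have hmov : ∀ z, z ≠ x → z ≠ y → μ z ≠ x ∧ μ z ≠ y := by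
    intro z hz1 hz2
    constructor
    · intro h
      apply hz1
      rw [← h1 z, h, hμx]
    · intro h
      apply hz2
      rw [← h1 z, h, hμy]
  have hνS : ν ∈ S := by
    simp only [S, mem_filter, mem_univ, true_and]
    refine ⟨fun z => ?_, fun z hz => ?_, fun z => ?_⟩
    · by_cases hz1 : z = x
      · rw [hz1, hνx, hνy]
      · by_cases hz2 : z = y
        · rw [hz2, hνy, hνx]
        · rw [hν z hz1 hz2, hν _ (hmov z hz1 hz2).1 (hmov z hz1 hz2).2, h1]
    · have hz1 : z ≠ x := fun h => hz (h ▸ hx)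
      have hz2 : z ≠ y := fun h => hz (h ▸ hy)
      rw [hν z hz1 hz2, h2 z hz]
    · by_cases hz1 : z = x
      · rw [hz1, hνx]; exact hadj
      · by_cases hz2 : z = y
        · rw [hz2, hνy]; exact fun h => hadj h.symm
        · rw [hν z hz1 hz2]; exact h3 z
  have hlt : (univ.filter (fun z => μ z ≠ z)).card < (univ.filter (fun z => ν z ≠ z)).card := by
    apply card_lt_card
    rw [Finset.ssubset_iff_of_subset]
    · refine ⟨x, ?_, ?_⟩
      · simp only [mem_filter, mem_univ, true_and, hνx]; exact hxy.symm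
      · simp only [mem_filter, mem_univ, true_and, not_not]; exact hμx
    · intro z hz
      simp only [mem_filter, mem_univ, true_and] at hz ⊢
      have hz1 : z ≠ x := by rintro rfl; exact hz hμx
      have hz2 : z ≠ y := by rintro rfl; exact hz hμy
      rw [hν z hz1 hz2]
      exact hz
  exact absurd (hmax ν hνS) (not_le.2 hlt)

theorem goalDECA : GoalDECA := by
  classical
  intro δ α V _ H Δ hα hαδ hδ hdeg hcl v hE
  set N : Finset V := univ.filter (fun x => H.Adj v x) with hN
  have hmN : ∀ x, x ∈ N ↔ H.Adj v x := fun x => by simp [hN]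
  have hNΔ : (N.card : ℝ) ≤ Δ := by
    have := hdeg v
    rw [nc] at this
    exact_mod_cast this
  set m : V → ℝ := fun x => ((N.filter (fun y => ¬ H.Adj x y)).card : ℝ) with hm
  set g : V → ℝ := fun x => ((N.filter (fun y => H.Adj x y)).card : ℝ) with hg
  have hmg : ∀ x, g x + m x = N.card := by
    intro x
    have := card_filter_add_card_filter_not (s := N) (fun y => H.Adj x y)
    simp only [hg, hm]
    exact_mod_cast this
  have hm0 : ∀ x, 0 ≤ m x := fun x => Nat.cast_nonneg _
  have hα1 : α ≤ 1 / 4 := by linarith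
  have hΔ0 : (0 : ℝ) ≤ Δ := Nat.cast_nonneg _
  -- the edges
  have hEsum : (Nat.card {p : V × V // H.Adj v p.1 ∧ H.Adj v p.2 ∧ H.Adj p.1 p.2} : ℝ) =
      ∑ x ∈ N, g x := by
    rw [nc]
    have h1 : (univ.filter (fun p : V × V => H.Adj v p.1 ∧ H.Adj v p.2 ∧ H.Adj p.1 p.2)) =
        (N ×ˢ N).filter (fun p => H.Adj p.1 p.2) := by
      ext p
      simp [hmN, and_assoc]
    rw [h1, card_filter, sum_product]
    push_cast
    refine sum_congr rfl (fun x _ => ?_)
    rw [hg]
    simp only [card_filter]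
    push_cast
    rfl
  have hgsum : ∑ x ∈ N, g x = (N.card : ℝ) ^ 2 - ∑ x ∈ N, m x := by
    have : ∑ x ∈ N, (g x + m x) = (N.card : ℝ) * N.card := by
      rw [sum_congr rfl (fun x _ => hmg x), sum_const, nsmul_eq_mul]
    rw [sum_add_distrib] at this
    linarith
  rw [hEsum, hgsum] at hE
  have hmsum0 : 0 ≤ ∑ x ∈ N, m x := sum_nonneg (fun x _ => hm0 x)
  have hN2 : (N.card : ℝ) ^ 2 ≤ (Δ : ℝ) ^ 2 := pow_le_pow_left₀ (Nat.cast_nonneg _) hNΔ 2
  have hmsum : ∑ x ∈ N, m x ≤ α ^ 2 * (Δ : ℝ) ^ 2 := by nlinarith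
  have hNlow : (1 - α ^ 2) * (Δ : ℝ) ≤ N.card := by
    rcases hΔ0.eq_or_lt with h0 | h0
    · rw [← h0, mul_zero]; exact Nat.cast_nonneg _
    · have h1 : (1 - α ^ 2) * (Δ : ℝ) * Δ ≤ N.card * Δ := by
        have : (N.card : ℝ) ^ 2 ≤ N.card * Δ := by
          rw [pow_two]; exact mul_le_mul_of_nonneg_left hNΔ (Nat.cast_nonneg _)
        nlinarith
      exact le_of_mul_le_mul_right h1 h0
  -- the typical vertices
  set Ty : Set V := {x | x ∈ N ∧ m x ≤ α * Δ} with hTy
  have hbad : ((N.filter (fun x => ¬ m x ≤ α * Δ)).card : ℝ) ≤ α * Δ := by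
    rcases hΔ0.eq_or_lt with h0 | h0
    · have : (N.card : ℝ) ≤ 0 := by rw [← h0] at hNΔ; exact hNΔ
      have h2 : ((N.filter (fun x => ¬ m x ≤ α * Δ)).card : ℝ) ≤ N.card := by
        exact_mod_cast card_filter_le _ _
      have h3 : α * (Δ : ℝ) = 0 := by rw [← h0, mul_zero]
      linarith
    · have h1 : ((N.filter (fun x => ¬ m x ≤ α * Δ)).card : ℝ) * (α * Δ) ≤ ∑ x ∈ N, m x := by
        calc ((N.filter (fun x => ¬ m x ≤ α * Δ)).card : ℝ) * (α * Δ)
            = ∑ x ∈ N.filter (fun x => ¬ m x ≤ α * Δ), α * Δ := by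
              rw [sum_const, nsmul_eq_mul]
          _ ≤ ∑ x ∈ N.filter (fun x => ¬ m x ≤ α * Δ), m x := by
              refine sum_le_sum (fun x hx => ?_)
              exact (not_le.1 (mem_filter.1 hx).2).le
          _ ≤ ∑ x ∈ N, m x := by
              refine sum_le_sum_of_subset_of_nonneg (filter_subset _ _) (fun x _ _ => hm0 x)
      have h3 : ((N.filter (fun x => ¬ m x ≤ α * Δ)).card : ℝ) * (α * Δ) ≤ (α * Δ) * (α * Δ) := by
        nlinarith
      exact le_of_mul_le_mul_right h3 (by positivity)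
  obtain ⟨μ, hμ1, hμ2, hμ3, hμ4⟩ := exists_mu H Ty
  have hμTy : ∀ x ∈ Ty, μ x ∈ Ty := by
    intro x hx
    by_contra hn
    have h1 := hμ2 _ hn
    rw [hμ1] at h1
    rw [← h1] at hn
    exact hn hx
  refine ⟨Ty, μ, fun x hx => (hmN x).1 hx.1, ?_, ?_, hμ1, hμ2, hμTy, hμ3, ?_⟩
  · rw [nc]
    have : univ.filter (fun x => H.Adj v x ∧ x ∉ Ty) = N.filter (fun x => ¬ m x ≤ α * Δ) := by
      ext x
      simp only [mem_filter, mem_univ, true_and, hmN]
      constructor
      · rintro ⟨h1, h2⟩
        exact ⟨h1, fun h => h2 ⟨(hmN x).2 h1, h⟩⟩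
      · rintro ⟨h1, h2⟩
        exact ⟨h1, fun h => h2 h.2⟩
    rw [this]
    exact hbad
  · intro x hx
    constructor
    · rw [nc]
      have : univ.filter (fun y => H.Adj v y ∧ ¬ H.Adj x y) = N.filter (fun y => ¬ H.Adj x y) := by
        ext y
        simp [hmN]
      rw [this]
      exact hx.2
    · rw [nc]
      have h1 := hdeg x
      rw [nc] at h1
      have h2 := card_filter_add_card_filter_not (s := univ.filter (fun y => H.Adj x y))
        (fun y => H.Adj v y)
      have h3 : (univ.filter (fun y => H.Adj x y)).filter (fun y => H.Adj v y) =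
          N.filter (fun y => H.Adj x y) := by
        ext y
        simp [hmN, and_comm]
      have h4 : (univ.filter (fun y => H.Adj x y)).filter (fun y => ¬ H.Adj v y) =
          univ.filter (fun y => H.Adj x y ∧ ¬ H.Adj v y) := by
        rw [filter_filter]
      rw [h3, h4] at h2
      have h5 : g x + ((univ.filter (fun y => H.Adj x y ∧ ¬ H.Adj v y)).card : ℝ) ≤ Δ := by
        have : (N.filter (fun y => H.Adj x y)).card +
          (univ.filter (fun y => H.Adj x y ∧ ¬ H.Adj v y)).card ≤ Δ := by rw [h2]; exact h1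
        simp only [hg]
        exact_mod_cast this
      have h6 := hmg x
      have h7 : m x ≤ α * Δ := hx.2
      have h8 : α ^ 2 * (Δ : ℝ) ≤ α * Δ := by
        apply mul_le_mul_of_nonneg_right _ hΔ0
        nlinarith
      linarith
  · rw [nc]
    set F : Finset V := univ.filter (fun x => x ∈ Ty ∧ μ x = x) with hF
    have hFcl := hcl F (by
      intro x hx y hy hxy
      simp only [hF, mem_filter, mem_univ, true_and] at hx hy
      exact hμ4 x y hx.1 hy.1 hx.2 hy.2 hxy)
    have h1 : (N.card : ℝ) ≤ ((N.filter (fun x => ¬ m x ≤ α * Δ)).card : ℝ) + F.card +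
        ((univ.filter (fun x => μ x ≠ x)).card : ℝ) := by
      have hsub : N ⊆ (N.filter (fun x => ¬ m x ≤ α * Δ)) ∪ F ∪ univ.filter (fun x => μ x ≠ x) := by
        intro x hx
        by_cases h1 : m x ≤ α * Δ
        · by_cases h2 : μ x = x
          · refine mem_union_left _ (mem_union_right _ ?_)
            simp only [hF, mem_filter, mem_univ, true_and]
            exact ⟨⟨hx, h1⟩, h2⟩
          · refine mem_union_right _ ?_
            simp only [mem_filter, mem_univ, true_and]
            exact h2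
        · exact mem_union_left _ (mem_union_left _ (mem_filter.2 ⟨hx, h1⟩))
      have h2 := (card_le_card hsub).trans (card_union_le _ _)
      have h3 := card_union_le (N.filter (fun x => ¬ m x ≤ α * Δ)) F
      have h4 : N.card ≤ (N.filter (fun x => ¬ m x ≤ α * Δ)).card + F.card +
        (univ.filter (fun x => μ x ≠ x)).card := by omega
      exact_mod_cast h4
    have h8 : α ^ 2 * (Δ : ℝ) ≤ α * Δ := by
      apply mul_le_mul_of_nonneg_right _ hΔ0
      nlinarith
    have h9 : 4 * α * (Δ : ℝ) ≤ δ * Δ := mul_le_mul_of_nonneg_right hαδ hΔ0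
    linarith

end Pool.Agent.Helper56.Sey3
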